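import Mathlib

/-!
Many primes in `[x, 2x)`: at least `x ^ (1 - δ)` for large `x`.
-/

namespace Pool.Agent.helper86

open Nat Filter

/-- The number of primes in `(n, 2n]`. -/
def primesIn (n : ℕ) : ℕ := ((Finset.Ioc n (2 * n)).filter Nat.Prime).card

lemma centralBinom_le_primesIn (n : ℕ) (n_large : 2 < n) :
    centralBinom n ≤ (2 * n) ^ sqrt (2 * n) * 4 ^ (2 * n / 3) * (2 * n) ^ primesIn n := by
  have n_pos : 0 < n := (Nat.zero_le _).trans_lt n_large
  have n2_pos : 1 ≤ 2 * n := mul_pos (zero_lt_two' ℕ) n_pos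
  let f x := x ^ n.centralBinom.factorization x
  have hsub : Finset.range (2 * n / 3 + 1) ⊆ Finset.range (2 * n + 1) := by
    intro p hp
    rw [Finset.mem_range] at hp ⊢
    have := Nat.div_le_self (2 * n) 3
    omega
  have h0 : centralBinom n = (∏ p ∈ Finset.range (2 * n / 3 + 1), f p) *
      ∏ p ∈ Finset.range (2 * n + 1) \ Finset.range (2 * n / 3 + 1), f p := by
    have h1 := n.prod_pow_factorization_centralBinom
    have h2 := Finset.prod_sdiff (f := f) hsub
    calc centralBinom n = ∏ p ∈ Finset.range (2 * n + 1), f p := h1.symm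
      _ = _ := by rw [← h2, mul_comm]
  let S := {p ∈ Finset.range (2 * n / 3 + 1) | Nat.Prime p}
  have hS : ∏ x ∈ S, f x = ∏ x ∈ Finset.range (2 * n / 3 + 1), f x := by
    refine Finset.prod_filter_of_ne fun p _ h => ?_
    contrapose h; dsimp only [f]
    rw [factorization_eq_zero_of_not_prime n.centralBinom h, _root_.pow_zero]
  have hsmall : ∏ p ∈ Finset.range (2 * n / 3 + 1), f p ≤
      (2 * n) ^ sqrt (2 * n) * 4 ^ (2 * n / 3) := by
    rw [← hS, ← Finset.prod_filter_mul_prod_filter_not S (· ≤ sqrt (2 * n))]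
    apply mul_le_mul'
    · refine (Finset.prod_le_prod' fun p _ => (?_ : f p ≤ 2 * n)).trans ?_
      · exact pow_factorization_choose_le (mul_pos two_pos n_pos)
      have : (Finset.Icc 1 (sqrt (2 * n))).card = sqrt (2 * n) := by
        rw [card_Icc, Nat.add_sub_cancel]
      rw [Finset.prod_const]
      refine pow_right_mono₀ n2_pos ((Finset.card_le_card fun x hx => ?_).trans this.le)
      obtain ⟨h1, h2⟩ := Finset.mem_filter.1 hx
      exact Finset.mem_Icc.mpr ⟨(Finset.mem_filter.1 h1).2.one_lt.le, h2⟩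
    · refine le_trans ?_ (primorial_le_four_pow (2 * n / 3))
      refine (Finset.prod_le_prod' fun p hp => (?_ : f p ≤ p)).trans ?_
      · obtain ⟨h1, h2⟩ := Finset.mem_filter.1 hp
        refine (pow_right_mono₀ (Finset.mem_filter.1 h1).2.one_lt.le ?_).trans (pow_one p).le
        exact Nat.factorization_choose_le_one (sqrt_lt'.mp <| not_le.1 h2)
      refine Finset.prod_le_prod_of_subset_of_one_le' (Finset.filter_subset _ _) ?_
      exact fun p hp _ => (Finset.mem_filter.1 hp).2.one_lt.le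
  have hlarge : ∏ p ∈ Finset.range (2 * n + 1) \ Finset.range (2 * n / 3 + 1), f p ≤
      (2 * n) ^ primesIn n := by
    have hsub2 : (Finset.Ioc n (2 * n)).filter Nat.Prime ⊆
        Finset.range (2 * n + 1) \ Finset.range (2 * n / 3 + 1) := by
      intro p hp
      rw [Finset.mem_filter, Finset.mem_Ioc] at hp
      rw [Finset.mem_sdiff, Finset.mem_range, Finset.mem_range]
      have : 2 * n / 3 ≤ n := by omega
      omega
    have h1 : ∏ p ∈ (Finset.Ioc n (2 * n)).filter Nat.Prime, f p =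
        ∏ p ∈ Finset.range (2 * n + 1) \ Finset.range (2 * n / 3 + 1), f p := by
      refine Finset.prod_subset hsub2 fun p hp hp2 => ?_
      rw [Finset.mem_sdiff, Finset.mem_range, Finset.mem_range] at hp
      rw [Finset.mem_filter, Finset.mem_Ioc] at hp2
      by_cases hpr : p.Prime
      · have hpn : p ≤ n := by
          by_contra hlt
          exact hp2 ⟨⟨by omega, by omega⟩, hpr⟩
        have h3 : 2 * n < 3 * p := by omega
        simp only [f]
        rw [factorization_centralBinom_of_two_mul_self_lt_three_mul n_large hpn h3, Nat.pow_zero]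
      · simp only [f]
        rw [factorization_eq_zero_of_not_prime n.centralBinom hpr, Nat.pow_zero]
    rw [← h1]
    refine (Finset.prod_le_prod' fun p _ => (?_ : f p ≤ 2 * n)).trans ?_
    · exact pow_factorization_choose_le (mul_pos two_pos n_pos)
    rw [Finset.prod_const]
    rfl
  rw [h0]
  exact Nat.mul_le_mul hsmall hlarge

lemma primesIn_log (n : ℕ) (n_large : 4 ≤ n) :
    (n : ℝ) * Real.log 4 ≤ Real.log n + Real.sqrt (2 * n) * Real.log (2 * n) +
      (2 * n / 3) * Real.log 4 + primesIn n * Real.log (2 * n) := by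
  have h1 : 4 ^ n < n * n.centralBinom := Nat.four_pow_lt_mul_centralBinom n n_large
  have h2 := centralBinom_le_primesIn n (by omega)
  have h3 : 4 ^ n ≤ n * ((2 * n) ^ sqrt (2 * n) * 4 ^ (2 * n / 3) * (2 * n) ^ primesIn n) :=
    h1.le.trans (Nat.mul_le_mul_left n h2)
  have h4 : (4 : ℝ) ^ n ≤ n * ((2 * n) ^ sqrt (2 * n) * 4 ^ (2 * n / 3) *
      (2 * n) ^ primesIn n) := by exact_mod_cast h3
  have hn0 : (0 : ℝ) < n := by exact_mod_cast (by omega : 0 < n)
  have h5 := Real.log_le_log (by positivity) h4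
  rw [Real.log_mul (by positivity) (by positivity), Real.log_mul (by positivity) (by positivity),
    Real.log_mul (by positivity) (by positivity), Real.log_pow, Real.log_pow, Real.log_pow,
    Real.log_pow] at h5
  have hlog4 : 0 < Real.log 4 := Real.log_pos (by norm_num)
  have hlog2n : 0 ≤ Real.log (2 * n) := Real.log_nonneg (by
    have : (4 : ℝ) ≤ n := by exact_mod_cast n_large
    linarith)
  have h6 : ((sqrt (2 * n) : ℕ) : ℝ) * Real.log (2 * n) ≤
      Real.sqrt (2 * n) * Real.log (2 * n) := by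
    have : ((sqrt (2 * n) : ℕ) : ℝ) ≤ Real.sqrt ((2 * n : ℕ) : ℝ) := Real.nat_sqrt_le_real_sqrt
    push_cast at this
    gcongr
  have h7 : ((2 * n / 3 : ℕ) : ℝ) * Real.log 4 ≤ (2 * n / 3) * Real.log 4 := by
    have : ((2 * n / 3 : ℕ) : ℝ) ≤ ((2 * n : ℕ) : ℝ) / 3 := by exact_mod_cast Nat.cast_div_le
    push_cast at this
    gcongr
  linarith

lemma primesIn_ge {δ : ℝ} (hδ : 0 < δ) (hδ1 : δ < 1) :
    ∀ᶠ n : ℕ in atTop, (n : ℝ) ^ (1 - δ) ≤ primesIn n := by
  have ha := (isLittleO_log_rpow_atTop hδ).bound (by norm_num : (0 : ℝ) < 1 / 10)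
  have hb := (isLittleO_log_rpow_atTop (by norm_num : (0 : ℝ) < 1 / 2)).bound
    (by norm_num : (0 : ℝ) < 1 / 10)
  have ht : Tendsto (fun n : ℕ => 2 * (n : ℝ)) atTop atTop :=
    (tendsto_natCast_atTop_atTop).const_mul_atTop (by norm_num)
  filter_upwards [ht.eventually ha, ht.eventually hb, eventually_ge_atTop 10] with n h1 h2 h3
  have hn : (10 : ℝ) ≤ n := by exact_mod_cast h3
  have hn0 : (0 : ℝ) < n := by linarith
  have hlog : 0 < Real.log (2 * n) := Real.log_pos (by linarith)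
  rw [Real.norm_of_nonneg hlog.le, Real.norm_of_nonneg (by positivity)] at h1 h2
  have hmain := primesIn_log n (by omega)
  have hlog4 : (1.38 : ℝ) ≤ Real.log 4 := by
    have : Real.log 4 = 2 * Real.log 2 := by
      rw [show (4 : ℝ) = 2 ^ 2 by norm_num, Real.log_pow]; norm_num
    have := Real.log_two_gt_d9
    linarith
  have hsq : (2 * (n : ℝ)) ^ (1 / 2 : ℝ) = Real.sqrt (2 * n) := (Real.sqrt_eq_rpow _).symm
  rw [hsq] at h2
  have hsq2 : Real.sqrt (2 * n) * Real.sqrt (2 * n) = 2 * n := Real.mul_self_sqrt (by positivity)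
  have hsq0 : 0 ≤ Real.sqrt (2 * n) := Real.sqrt_nonneg _
  have hsq4 : 4 ≤ Real.sqrt (2 * n) := by
    rw [show (4 : ℝ) = Real.sqrt 16 by
      rw [show (16 : ℝ) = 4 ^ 2 by norm_num, Real.sqrt_sq (by norm_num)]]
    exact Real.sqrt_le_sqrt (by linarith)
  have e1 : Real.sqrt (2 * n) * Real.log (2 * n) ≤ 0.2 * n := by
    calc Real.sqrt (2 * n) * Real.log (2 * n)
        ≤ Real.sqrt (2 * n) * (1 / 10 * Real.sqrt (2 * n)) := by gcongr
      _ = 1 / 10 * (Real.sqrt (2 * n) * Real.sqrt (2 * n)) := by ring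
      _ = 0.2 * n := by rw [hsq2]; ring
  have e2 : Real.log n ≤ 0.05 * n := by
    have : Real.log n ≤ Real.log (2 * n) := Real.log_le_log hn0 (by linarith)
    nlinarith
  have e3 : (n : ℝ) ^ (1 - δ) * Real.log (2 * n) ≤ 0.2 * n := by
    calc (n : ℝ) ^ (1 - δ) * Real.log (2 * n)
        ≤ (2 * n : ℝ) ^ (1 - δ) * (1 / 10 * (2 * n : ℝ) ^ δ) := by
          gcongr
          linarith
      _ = 1 / 10 * ((2 * n : ℝ) ^ (1 - δ) * (2 * n : ℝ) ^ δ) := by ring
      _ = 1 / 10 * (2 * n : ℝ) := by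
          rw [← Real.rpow_add (by positivity)]; norm_num
      _ = 0.2 * n := by ring
  have e4 : (n : ℝ) ^ (1 - δ) * Real.log (2 * n) ≤ primesIn n * Real.log (2 * n) := by
    nlinarith
  exact le_of_mul_le_mul_right e4 hlog

/-- The primes in `[x, 2x)`. -/
noncomputable def dyadicPrimes (x : ℝ) : Finset ℕ :=
  (Finset.range ⌈2 * x⌉₊).filter (fun p => p.Prime ∧ x ≤ p)

lemma mem_dyadicPrimes {x : ℝ} {p : ℕ} :
    p ∈ dyadicPrimes x ↔ p.Prime ∧ x ≤ p ∧ (p : ℝ) < 2 * x := by
  rw [dyadicPrimes, Finset.mem_filter, Finset.mem_range, Nat.lt_ceil]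
  tauto

lemma dyadicPrimes_ge {δ : ℝ} (hδ : 0 < δ) (hδ1 : δ < 1) :
    ∀ᶠ x : ℝ in atTop, x ^ (1 - δ) ≤ (dyadicPrimes x).card := by
  have h1 := primesIn_ge (half_pos hδ) (by linarith)
  have ht : Tendsto (fun x : ℝ => ⌈x⌉₊ - 1) atTop atTop :=
    (tendsto_sub_atTop_nat 1).comp tendsto_nat_ceil_atTop
  have h2 : ∀ᶠ x : ℝ in atTop, 2 ≤ x ^ (δ / 2) :=
    (tendsto_rpow_atTop (half_pos hδ)).eventually_ge_atTop 2
  filter_upwards [ht.eventually h1, h2, eventually_ge_atTop 10] with x hx hx2 hx3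
  set n : ℕ := ⌈x⌉₊ - 1 with hn
  have hx0 : 0 < x := by linarith
  have hceil : 1 ≤ ⌈x⌉₊ := Nat.one_le_ceil_iff.mpr hx0
  have hn1 : (n : ℝ) + 1 = ⌈x⌉₊ := by
    rw [hn, Nat.cast_sub hceil]; push_cast; ring
  have hn2 : x ≤ n + 1 := by rw [hn1]; exact Nat.le_ceil x
  have hn3 : (n : ℝ) < x := by
    have := Nat.ceil_lt_add_one hx0.le
    linarith
  have hsub : (Finset.Ioc n (2 * n)).filter Nat.Prime ⊆ dyadicPrimes x := by
    intro p hp
    rw [Finset.mem_filter, Finset.mem_Ioc] at hp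
    rw [mem_dyadicPrimes]
    refine ⟨hp.2, ?_, ?_⟩
    · have : (n : ℝ) + 1 ≤ p := by exact_mod_cast hp.1.1
      linarith
    · have : (p : ℝ) ≤ 2 * n := by exact_mod_cast hp.1.2
      linarith
  have hcard : (primesIn n : ℝ) ≤ (dyadicPrimes x).card := by
    exact_mod_cast Finset.card_le_card hsub
  refine le_trans ?_ (hx.trans hcard)
  have hn4 : x / 2 ≤ n := by linarith
  calc x ^ (1 - δ) = x ^ (1 - δ / 2) / x ^ (δ / 2) := by
        rw [← Real.rpow_sub hx0]; congr 1; ring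
    _ ≤ x ^ (1 - δ / 2) / 2 := by gcongr
    _ ≤ x ^ (1 - δ / 2) / 2 ^ (1 - δ / 2) := by
        gcongr
        calc (2 : ℝ) ^ (1 - δ / 2) ≤ 2 ^ (1 : ℝ) := by
              apply Real.rpow_le_rpow_of_exponent_le <;> linarith
          _ = 2 := by norm_num
    _ = (x / 2) ^ (1 - δ / 2) := by rw [Real.div_rpow hx0.le (by norm_num)]
    _ ≤ (n : ℝ) ^ (1 - δ / 2) := by
        apply Real.rpow_le_rpow (by positivity) hn4; linarith

end Pool.Agent.helper86
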